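import Pool.Agent.Lib.MP_0430e4_lc.BY.U.HAg
import Pool.Agent.Lib.MP_0430e4_lc.BY.H.High

/-!
# Distance enumerators on the positive axis, at every relative distance
-/

set_option autoImplicit false

open Finset Filter Topology

namespace Pool.Agent.Lib.MP_0430e4_lc.BY

variable {n : ℕ}

/-- the distance enumerator (not normalised) -/
noncomputable def PW (C : Finset (Wd n)) (s : ℝ) : ℝ := ∑ w ∈ range (n + 1), (Nw C w : ℝ) * s ^ w

theorem PW_nonneg (C : Finset (Wd n)) {s : ℝ} (h0 : 0 ≤ s) : 0 ≤ PW C s :=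
  Finset.sum_nonneg fun w _ => by positivity

/-- the part of the high weights -/
theorem high_part (C : Finset (Wd n)) {D : ℕ} (hD : 2 * D ≤ n) {s : ℝ} (h0 : 0 < s) (h1 : s ≤ 1) :
    ∑ w ∈ (range (n + 1)).filter (fun w => n - D < w), (Nw C w : ℝ) * s ^ w ≤
      s ^ (n - 2 * D) * PW C s := by
  have h2 : ∑ w ∈ (range (n + 1)).filter (fun w => n - D < w), (Nw C w : ℝ) * s ^ w ≤
      ∑ w ∈ range (n + 1), s ^ (n - 2 * D) * ((Nw C w : ℝ) * s ^ (n - w)) := by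
    refine (Finset.sum_le_sum (g := fun w => s ^ (n - 2 * D) * ((Nw C w : ℝ) * s ^ (n - w))) ?_).trans
      (Finset.sum_le_sum_of_subset_of_nonneg (Finset.filter_subset _ _) fun w _ _ => by positivity)
    intro w hw
    obtain ⟨hw1, hw2⟩ := Finset.mem_filter.mp hw
    have hwn : w ≤ n := Nat.lt_succ_iff.mp (Finset.mem_range.mp hw1)
    have h3 : s ^ w = s ^ (2 * w - n) * s ^ (n - w) := by
      rw [← pow_add]; congr 1; omega
    have h4 : s ^ (2 * w - n) ≤ s ^ (n - 2 * D) :=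
      pow_le_pow_of_le_one h0.le h1 (by omega)
    rw [h3]
    calc (Nw C w : ℝ) * (s ^ (2 * w - n) * s ^ (n - w)) =
          s ^ (2 * w - n) * ((Nw C w : ℝ) * s ^ (n - w)) := by ring
      _ ≤ _ := mul_le_mul_of_nonneg_right h4 (by positivity)
  refine h2.trans ?_
  rw [← Finset.mul_sum]
  exact mul_le_mul_of_nonneg_left (flip_le C h0 h1) (by positivity)

/-- the part of the middle weights -/
theorem mid_part (C : Finset (Wd n)) {D : ℕ} {K s : ℝ} (h0 : 0 ≤ s) (hK : 0 ≤ K)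
    (h : ∀ w, D ≤ w → w + D ≤ n → (Nw C w : ℝ) ≤ K * n.choose w) :
    ∑ w ∈ (range (n + 1)).filter (fun w => D ≤ w ∧ w + D ≤ n), (Nw C w : ℝ) * s ^ w ≤
      K * (1 + s) ^ n := by
  have h2 : ∑ w ∈ (range (n + 1)).filter (fun w => D ≤ w ∧ w + D ≤ n), (Nw C w : ℝ) * s ^ w ≤
      ∑ w ∈ range (n + 1), K * (s ^ w * n.choose w) := by
    refine (Finset.sum_le_sum (g := fun w => K * (s ^ w * n.choose w)) ?_).trans
      (Finset.sum_le_sum_of_subset_of_nonneg (Finset.filter_subset _ _) fun w _ _ => by positivity)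
    intro w hw
    obtain ⟨_, hw2, hw3⟩ := Finset.mem_filter.mp hw
    calc (Nw C w : ℝ) * s ^ w ≤ (K * n.choose w) * s ^ w :=
          mul_le_mul_of_nonneg_right (h w hw2 hw3) (by positivity)
      _ = _ := by ring
  refine h2.trans ?_
  rw [← Finset.mul_sum]
  apply mul_le_mul_of_nonneg_left _ hK
  rw [add_comm 1 s, add_pow]
  apply le_of_eq
  apply Finset.sum_congr rfl
  intro w _
  rw [one_pow, mul_one]

/-- the decomposition -/
theorem PW_split {D : ℕ} (hD0 : 0 < D) (hD : 2 * D ≤ n) {C : Finset (Wd n)} (hC : IsCode D C)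
    (s : ℝ) :
    PW C s = C.card +
      ∑ w ∈ (range (n + 1)).filter (fun w => D ≤ w ∧ w + D ≤ n), (Nw C w : ℝ) * s ^ w +
      ∑ w ∈ (range (n + 1)).filter (fun w => n - D < w), (Nw C w : ℝ) * s ^ w := by
  unfold PW
  rw [Finset.sum_filter, Finset.sum_filter]
  have h1 : (C.card : ℝ) = ∑ w ∈ range (n + 1), if w = 0 then (C.card : ℝ) else 0 := by
    rw [Finset.sum_ite_eq']
    simp
  rw [h1, ← Finset.sum_add_distrib, ← Finset.sum_add_distrib]
  apply Finset.sum_congr rfl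
  intro w hw
  have hwn : w ≤ n := Nat.lt_succ_iff.mp (Finset.mem_range.mp hw)
  by_cases h0 : w = 0
  · subst h0
    rw [if_pos rfl, if_neg (by omega), if_neg (by omega), Nw_zero]
    simp
  · rw [if_neg h0]
    by_cases h2 : w < D
    · rw [if_neg (by omega), if_neg (by omega), Nw_of_lt hC h0 h2]
      simp
    · by_cases h3 : w + D ≤ n
      · rw [if_pos ⟨by omega, h3⟩, if_neg (by omega)]
        ring
      · rw [if_neg (by omega), if_pos (by omega)]
        ring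

theorem two_ceil {δ : ℝ} (h0 : 0 < δ) (h1 : δ < 1 / 2) : ∃ n0 : ℕ, ∀ n ≥ n0,
    2 * ⌈δ * (n : ℝ)⌉₊ ≤ n ∧
    (1 - 2 * δ) * n - 2 ≤ ((n - 2 * ⌈δ * (n : ℝ)⌉₊ : ℕ) : ℝ) := by
  obtain ⟨n0, hn0⟩ := exists_nat_gt (2 / (1 - 2 * δ))
  refine ⟨n0, fun n hn => ?_⟩
  have h2 : (0 : ℝ) < 1 - 2 * δ := by linarith
  have h3 : 2 < (1 - 2 * δ) * n := by
    have : (n0 : ℝ) ≤ n := by exact_mod_cast hn
    rw [div_lt_iff₀ h2] at hn0
    nlinarith
  have h4 : (⌈δ * (n : ℝ)⌉₊ : ℝ) < δ * n + 1 := Nat.ceil_lt_add_one (by positivity)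
  have h5 : 2 * ⌈δ * (n : ℝ)⌉₊ ≤ n := by
    have : ((2 * ⌈δ * (n : ℝ)⌉₊ : ℕ) : ℝ) ≤ n := by push_cast; linarith
    exact_mod_cast this
  refine ⟨h5, ?_⟩
  rw [Nat.cast_sub h5]
  push_cast
  linarith

/-- **The off-diagonal part of the distance enumerator**, for all codes of distance `δ n`. -/
theorem off_gen {δ : ℝ} (hδ0 : 0 < δ) (hδ1 : δ < 1 / 2) (η : ℝ) (hη : 0 < η) :
    ∃ n₀ : ℕ, ∀ n ≥ n₀, ∀ C : Finset (Wd n), IsCode ⌈δ * n⌉₊ C → ∀ s : ℝ, 0 < s → s ≤ 1 - η →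
      PW C s - C.card ≤ pw n η * (C.card * (pw n (Tensor.ell δ) * ((1 + s) / 2) ^ n) +
        C.card * s ^ (n - 2 * ⌈δ * n⌉₊)) := by
  obtain ⟨n1, hn1⟩ := HA_gen hδ0 hδ1 (η / 2) (by linarith)
  obtain ⟨n2, hn2⟩ := two_ceil hδ0 hδ1
  obtain ⟨n3, hn3⟩ := pw_large 2 (t := η / 2) (by linarith)
  obtain ⟨n4, hn4⟩ := pw_large 2 hη
  rcases le_or_gt 1 η with hη1 | hη1
  · exact ⟨0, fun n _ C _ s hs0 hs1 => by linarith⟩
  obtain ⟨m0, hm0⟩ : ∃ m0 : ℕ, (1 - η) ^ m0 < 1 / 2 :=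
    exists_pow_lt_of_lt_one (by norm_num) (by linarith)
  obtain ⟨n5, hn5⟩ := exists_nat_gt ((m0 + 2 : ℝ) / (1 - 2 * δ))
  refine ⟨max (max n1 n2) (max (max n3 n4) (max n5 1)), fun n hn C hC s hs0 hs1 => ?_⟩
  have g1 : n1 ≤ n := le_trans (by simp) hn
  have g2 : n2 ≤ n := le_trans (by simp) hn
  have g3 : n3 ≤ n := le_trans (by simp) hn
  have g4 : n4 ≤ n := le_trans (by simp) hn
  have g5 : n5 ≤ n := le_trans (by simp) hn
  have g6 : 1 ≤ n := le_trans (by simp) hn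
  have hA := hn1 n g1 C hC
  obtain ⟨hD, hDm⟩ := hn2 n g2
  have e3 := hn3 n g3
  have e4 := hn4 n g4
  have hnpos : (0 : ℝ) < n := by exact_mod_cast g6
  set D : ℕ := ⌈δ * (n : ℝ)⌉₊ with hDdef
  have hD0 : 0 < D := by rw [hDdef]; exact Nat.ceil_pos.mpr (by positivity)
  set m : ℕ := n - 2 * D with hm
  have hmm : m0 ≤ m := by
    have h2 : (0 : ℝ) < 1 - 2 * δ := by linarith
    have h3 : (n5 : ℝ) ≤ n := by exact_mod_cast g5
    rw [div_lt_iff₀ h2] at hn5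
    have h4 : (m0 : ℝ) ≤ m := by nlinarith
    exact_mod_cast h4
  have hs2 : s ≤ 1 := by linarith
  have hsm : s ^ m ≤ 1 / 2 := by
    calc s ^ m ≤ s ^ m0 := pow_le_pow_of_le_one hs0.le hs2 hmm
      _ ≤ (1 - η) ^ m0 := pow_le_pow_left₀ hs0.le hs1 _
      _ ≤ 1 / 2 := hm0.le
  have hsm0 : 0 < s ^ m := by positivity
  have hP := PW_split hD0 hD hC s
  have hE := high_part C hD hs0 hs2
  have hcard : (0 : ℝ) ≤ C.card := Nat.cast_nonneg _
  have hMd := mid_part C (D := D) (K := C.card * pw n (Tensor.ell δ - 1 + η / 2)) hs0.le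
    (mul_nonneg hcard (pw_pos _ _).le) (fun w h1 h2 => by
      have := hA w h1 h2
      exact this)
  set mid := ∑ w ∈ (range (n + 1)).filter (fun w => D ≤ w ∧ w + D ≤ n), (Nw C w : ℝ) * s ^ w
  set E := ∑ w ∈ (range (n + 1)).filter (fun w => n - D < w), (Nw C w : ℝ) * s ^ w
  have hmid0 : 0 ≤ mid := Finset.sum_nonneg fun w _ => by positivity
  have hE0 : 0 ≤ E := Finset.sum_nonneg fun w _ => by positivity
  have hP0 : 0 ≤ PW C s := PW_nonneg C hs0.le
  have h1 : PW C s ≤ 2 * (C.card + mid) := by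
    have : s ^ m * PW C s ≤ 1 / 2 * PW C s := mul_le_mul_of_nonneg_right hsm hP0
    linarith
  have h2 : E ≤ 2 * (C.card * s ^ m) + mid := by
    calc E ≤ s ^ m * PW C s := hE
      _ ≤ s ^ m * (2 * (C.card + mid)) := mul_le_mul_of_nonneg_left h1 hsm0.le
      _ = 2 * (C.card * s ^ m) + (2 * s ^ m) * mid := by ring
      _ ≤ 2 * (C.card * s ^ m) + 1 * mid := by
          have : 2 * s ^ m ≤ 1 := by linarith
          linarith [mul_le_mul_of_nonneg_right this hmid0]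
      _ = _ := by ring
  have h3 : (C.card : ℝ) * pw n (Tensor.ell δ - 1 + η / 2) * (1 + s) ^ n =
      pw n (η / 2) * (C.card * (pw n (Tensor.ell δ) * ((1 + s) / 2) ^ n)) := by
    have : pw n (Tensor.ell δ - 1 + η / 2) = pw n (Tensor.ell δ) * pw n (η / 2) * (2 ^ n)⁻¹ := by
      rw [show Tensor.ell δ - 1 + η / 2 = Tensor.ell δ + η / 2 + -1 by ring, pw_add, pw_add, pw_neg,
        pw_one]
    rw [this, div_pow]
    field_simp
  rw [h3] at hMd
  set X : ℝ := C.card * (pw n (Tensor.ell δ) * ((1 + s) / 2) ^ n) with hX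
  have hX0 : 0 ≤ X := by
    have := pw_pos n (Tensor.ell δ)
    positivity
  have hpw : pw n η = pw n (η / 2) * pw n (η / 2) := by
    rw [← pw_add]; congr 1; ring
  have hq := pw_pos n (η / 2)
  have h4 : 2 * mid ≤ pw n η * X := by
    rw [hpw]
    calc 2 * mid ≤ 2 * (pw n (η / 2) * X) := by linarith
      _ ≤ pw n (η / 2) * (pw n (η / 2) * X) :=
          mul_le_mul_of_nonneg_right e3 (mul_nonneg hq.le hX0)
      _ = _ := by ring
  have h5 : 2 * (C.card * s ^ m) ≤ pw n η * (C.card * s ^ m) :=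
    mul_le_mul_of_nonneg_right e4 (mul_nonneg hcard hsm0.le)
  rw [mul_add]
  linarith

end Pool.Agent.Lib.MP_0430e4_lc.BY
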